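import Pool.Agent.H23.GB.Targets9
import Pool.Agent.H92.GB.Aa

/-!
# Module A9 (MP_684e05_nt): growth and arithmetic of the balls of radius nine.
-/

set_option autoImplicit false

open Finset Polynomial
open scoped Classical Nat

namespace Pool.Agent.H67.GB.A9

open Pool.Agent.H23.GW Pool.Agent.H23.GA Pool.Agent.H23.GB

theorem rec9 (x : ℤ) (A : ℕ → ℤ) (h0 : A 0 = 1) (hr : ∀ n : ℕ, ((n : ℤ) + 1) * A (n + 1) =
    ∑ k ∈ range (n + 1), (if Even k then x else 1) * A (n - k)) :
    362880 * A 9 = x * (230481 + 122156 * x ^ 2 + 10038 * x ^ 4 + 204 * x ^ 6 + x ^ 8) := by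
  have e0 : A 0 = 1 := h0
  have r1 : (1 : ℤ) * A 1 = x * A 0 := by
    have h := hr 0
    simp only [Finset.sum_range_succ, Finset.range_zero, Finset.sum_empty] at h
    norm_num [Nat.even_iff] at h
    linear_combination h
  have r2 : (2 : ℤ) * A 2 = x * A 1 + A 0 := by
    have h := hr 1
    simp only [Finset.sum_range_succ, Finset.range_zero, Finset.sum_empty] at h
    norm_num [Nat.even_iff] at h
    linear_combination h
  have r3 : (3 : ℤ) * A 3 = x * A 2 + A 1 + x * A 0 := by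
    have h := hr 2
    simp only [Finset.sum_range_succ, Finset.range_zero, Finset.sum_empty] at h
    norm_num [Nat.even_iff] at h
    linear_combination h
  have r4 : (4 : ℤ) * A 4 = x * A 3 + A 2 + x * A 1 + A 0 := by
    have h := hr 3
    simp only [Finset.sum_range_succ, Finset.range_zero, Finset.sum_empty] at h
    norm_num [Nat.even_iff] at h
    linear_combination h
  have r5 : (5 : ℤ) * A 5 = x * A 4 + A 3 + x * A 2 + A 1 + x * A 0 := by
    have h := hr 4
    simp only [Finset.sum_range_succ, Finset.range_zero, Finset.sum_empty] at h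
    norm_num [Nat.even_iff] at h
    linear_combination h
  have r6 : (6 : ℤ) * A 6 = x * A 5 + A 4 + x * A 3 + A 2 + x * A 1 + A 0 := by
    have h := hr 5
    simp only [Finset.sum_range_succ, Finset.range_zero, Finset.sum_empty] at h
    norm_num [Nat.even_iff] at h
    linear_combination h
  have r7 : (7 : ℤ) * A 7 = x * A 6 + A 5 + x * A 4 + A 3 + x * A 2 + A 1 + x * A 0 := by
    have h := hr 6
    simp only [Finset.sum_range_succ, Finset.range_zero, Finset.sum_empty] at h
    norm_num [Nat.even_iff] at h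
    linear_combination h
  have r8 : (8 : ℤ) * A 8 = x * A 7 + A 6 + x * A 5 + A 4 + x * A 3 + A 2 + x * A 1 + A 0 := by
    have h := hr 7
    simp only [Finset.sum_range_succ, Finset.range_zero, Finset.sum_empty] at h
    norm_num [Nat.even_iff] at h
    linear_combination h
  have r9 : (9 : ℤ) * A 9 = x * A 8 + A 7 + x * A 6 + A 5 + x * A 4 + A 3 + x * A 2 + A 1 + x * A 0 := by
    have h := hr 8
    simp only [Finset.sum_range_succ, Finset.range_zero, Finset.sum_empty] at h
    norm_num [Nat.even_iff] at h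
    linear_combination h
  have e1 : (1 : ℤ) * A 1 = 1 * x ^ 1 := by
    linear_combination 1 * r1 + 1 * x * e0
  have e2 : (2 : ℤ) * A 2 = 1 + 1 * x ^ 2 := by
    linear_combination 1 * r2 + 1 * x * e1 + 1 * e0
  have e3 : (6 : ℤ) * A 3 = 5 * x ^ 1 + 1 * x ^ 3 := by
    linear_combination 2 * r3 + 1 * x * e2 + 2 * e1 + 2 * x * e0
  have e4 : (24 : ℤ) * A 4 = 9 + 14 * x ^ 2 + 1 * x ^ 4 := by
    linear_combination 6 * r4 + 1 * x * e3 + 3 * e2 + 6 * x * e1 + 6 * e0
  have e5 : (120 : ℤ) * A 5 = 89 * x ^ 1 + 30 * x ^ 3 + 1 * x ^ 5 := by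
    linear_combination 24 * r5 + 1 * x * e4 + 4 * e3 + 12 * x * e2 + 24 * e1 + 24 * x * e0
  have e6 : (720 : ℤ) * A 6 = 225 + 439 * x ^ 2 + 55 * x ^ 4 + 1 * x ^ 6 := by
    linear_combination 120 * r6 + 1 * x * e5 + 5 * e4 + 20 * x * e3 + 60 * e2 + 120 * x * e1 + 120 * e0
  have e7 : (5040 : ℤ) * A 7 = 3429 * x ^ 1 + 1519 * x ^ 3 + 91 * x ^ 5 + 1 * x ^ 7 := by
    linear_combination 720 * r7 + 1 * x * e6 + 6 * e5 + 30 * x * e4 + 120 * e3 + 360 * x * e2 + 720 * e1 + 720 * x * e0
  have e8 : (40320 : ℤ) * A 8 = 11025 + 24940 * x ^ 2 + 4214 * x ^ 4 + 140 * x ^ 6 + 1 * x ^ 8 := by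
    linear_combination 5040 * r8 + 1 * x * e7 + 7 * e6 + 42 * x * e5 + 210 * e4 + 840 * x * e3 + 2520 * e2 + 5040 * x * e1 + 5040 * e0
  have e9 : (362880 : ℤ) * A 9 = 230481 * x ^ 1 + 122156 * x ^ 3 + 10038 * x ^ 5 + 204 * x ^ 7 + 1 * x ^ 9 := by
    linear_combination 40320 * r9 + 1 * x * e8 + 8 * e7 + 56 * x * e6 + 336 * e5 + 1680 * x * e4 + 6720 * e3 + 20160 * x * e2 + 40320 * e1 + 40320 * x * e0
  linear_combination e9

theorem a9 : T_A9 := by
  refine ⟨⟨1 / 362880, by norm_num, fun m => ?_⟩, ⟨362881, fun m p hp hC hd => ?_⟩⟩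
  · have h1 := Pool.Agent.H92.GB.aa_lower m 9
    have h2 : (2 * (m : ℝ) + 1) ^ 9 ≤ 362880 * aa m 9 := by
      have h3 : ((2 * m + 1) ^ 9 : ℕ) ≤ 362880 * aa m 9 := by
        refine h1.trans (le_of_eq ?_)
        norm_num [Nat.factorial]
      exact_mod_cast h3
    have hm : (0 : ℝ) ≤ m := Nat.cast_nonneg m
    have h4 : (m : ℝ) ^ 6 ≤ (2 * (m : ℝ) + 1) ^ 9 := by
      calc (m : ℝ) ^ 6 ≤ (2 * (m : ℝ) + 1) ^ 6 := by
            gcongr
            linarith
        _ ≤ (2 * (m : ℝ) + 1) ^ 9 := by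
            apply pow_le_pow_right₀ _ (by norm_num)
            linarith
    linarith
  · have hrec := rec9 (2 * (m : ℤ) + 1) (fun n => (aa m n : ℤ))
      (by simp [Pool.Agent.H54.GA.aa_zero])
      (fun n => Pool.Agent.H54.GA.aa_rec Pool.Agent.H27.GW.gf m n)
    set x : ℕ := 2 * m + 1 with hx
    have hN : 362880 * aa m 9 =
        x * (230481 + 122156 * x ^ 2 + 10038 * x ^ 4 + 204 * x ^ 6 + x ^ 8) := by
      have : ((362880 * aa m 9 : ℕ) : ℤ) =
          ((x * (230481 + 122156 * x ^ 2 + 10038 * x ^ 4 + 204 * x ^ 6 + x ^ 8) : ℕ) : ℤ) := by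
        rw [hx]
        push_cast
        exact hrec
      exact_mod_cast this
    set Q : ℕ := 230481 + 122156 * x ^ 2 + 10038 * x ^ 4 + 204 * x ^ 6 + x ^ 8 with hQ
    have hp1 : ¬ p ∣ 362880 := fun h => by
      have := Nat.le_of_dvd (by norm_num) h
      omega
    have hpQ : ¬ p ∣ Q := by
      intro h
      have h1 : p ∣ 122156 * x ^ 2 + 10038 * x ^ 4 + 204 * x ^ 6 + x ^ 8 := by
        refine Dvd.dvd.trans hd ⟨122156 * x + 10038 * x ^ 3 + 204 * x ^ 5 + x ^ 7, by ring⟩
      have h2 : p ∣ 230481 := by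
        have h3 : Q = 230481 + (122156 * x ^ 2 + 10038 * x ^ 4 + 204 * x ^ 6 + x ^ 8) := by
          rw [hQ]; ring
        rw [h3] at h
        exact (Nat.dvd_add_left h1).1 h
      have := Nat.le_of_dvd (by norm_num) h2
      omega
    have hx0 : x ≠ 0 := by omega
    have hQ0 : Q ≠ 0 := by omega
    have ha0 : aa m 9 ≠ 0 := by
      intro h
      rw [h, mul_zero] at hN
      exact (mul_ne_zero hx0 hQ0) hN.symm
    constructor
    · have h1 : p ∣ 362880 * aa m 9 := by
        rw [hN]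
        exact Dvd.dvd.mul_right hd _
      exact (hp.dvd_mul.1 h1).resolve_left hp1
    · have h1 : (362880 * aa m 9).factorization p = (x * Q).factorization p := by rw [hN]
      rw [Nat.factorization_mul (by norm_num) ha0, Nat.factorization_mul hx0 hQ0,
        Finsupp.add_apply, Finsupp.add_apply, Nat.factorization_eq_zero_of_not_dvd hp1,
        Nat.factorization_eq_zero_of_not_dvd hpQ] at h1
      omega

end Pool.Agent.H67.GB.A9
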