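import Pool.Agent.H23.GB.Targets9

/-!
# Module C9 (MP_684e05_nt): counting the characters with small character sums, radius nine.
-/

set_option autoImplicit false

open Finset Polynomial
open scoped Classical Nat

namespace Pool.Agent.H67.GB.C9

open Pool.Agent.H23.GW Pool.Agent.H23.GA Pool.Agent.H23.GB

noncomputable section

/-! ### polynomial inequalities -/

theorem F9_diag (t : ℝ) (ht : 1 ≤ t) : F9 t t ≤ 3 * t ^ 5 := by
  have h1 : t ≤ t ^ 5 := by
    calc t = t ^ 1 := (pow_one t).symm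
      _ ≤ t ^ 5 := pow_le_pow_right₀ ht (by norm_num)
  have h0 : 1 ≤ t ^ 5 := one_le_pow₀ ht
  have h2 : t ^ 2 ≤ t ^ 5 := pow_le_pow_right₀ ht (by norm_num)
  have h3 : t ^ 3 ≤ t ^ 5 := pow_le_pow_right₀ ht (by norm_num)
  have h4 : t ^ 4 ≤ t ^ 5 := pow_le_pow_right₀ ht (by norm_num)
  have p1 : 0 ≤ t := by linarith
  have p2 : 0 ≤ t ^ 2 := by positivity
  have p3 : 0 ≤ t ^ 3 := by positivity
  have p4 : 0 ≤ t ^ 4 := by positivity
  have p5 : 0 ≤ t ^ 5 := by positivity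
  unfold F9
  rw [div_le_iff₀ (by norm_num)]
  nlinarith [h0, h1, h2, h3, h4, p1, p2, p3, p4, p5]

theorem F9_far (B : ℝ) (hB : 0 ≤ B) : ∃ Y : ℝ, 1 ≤ Y ∧ ∀ x y : ℝ, 0 ≤ x → x ≤ B → Y ≤ y →
    F9 x y ≤ 0 := by
  set b : ℝ := 1 + B with hb
  have hb1 : 1 ≤ b := by linarith
  set M : ℝ := 20000000 * b ^ 4 with hM
  have hM1 : 1 ≤ M := by
    have : 1 ≤ b ^ 4 := one_le_pow₀ hb1
    rw [hM]; linarith
  refine ⟨M, hM1, fun x y hx hxB hy => ?_⟩
  have hxb : x ≤ b := by linarith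
  have c0 : (1 : ℝ) ≤ b ^ 4 := one_le_pow₀ hb1
  have c1 : x ≤ b ^ 4 := hxb.trans (by
    calc b = b ^ 1 := (pow_one b).symm
      _ ≤ b ^ 4 := pow_le_pow_right₀ hb1 (by norm_num))
  have c2 : x ^ 2 ≤ b ^ 4 := (pow_le_pow_left₀ hx hxb 2).trans (pow_le_pow_right₀ hb1 (by norm_num))
  have c3 : x ^ 3 ≤ b ^ 4 := (pow_le_pow_left₀ hx hxb 3).trans (pow_le_pow_right₀ hb1 (by norm_num))
  have c4 : x ^ 4 ≤ b ^ 4 := pow_le_pow_left₀ hx hxb 4
  have x2 : 0 ≤ x ^ 2 := by positivity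
  have x3 : 0 ≤ x ^ 3 := by positivity
  have x4 : 0 ≤ x ^ 4 := by positivity
  have hy1 : 1 ≤ y := hM1.trans hy
  have hy0 : 0 ≤ y := by linarith
  have e1 : 9980000 - 6666667 * x + 1000000 * x ^ 2 - 47619 * x ^ 3 + 661 * x ^ 4 ≤ M := by
    rw [hM]; linarith
  have e2 : -6421146 + 3927884 * x - 575177 * x ^ 2 + 25862 * x ^ 3 - 316 * x ^ 4 ≤ M := by
    rw [hM]; linarith
  have e3 : 842348 - 355447 * x + 46629 * x ^ 2 - 1491 * x ^ 3 ≤ M := by
    rw [hM]; linarith
  have f2 := mul_le_mul_of_nonneg_right e2 hy0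
  have f3 := mul_le_mul_of_nonneg_right e3 (by positivity : (0 : ℝ) ≤ y ^ 2)
  have g1 : M * y ≤ M * y ^ 2 := by
    have : y ≤ y ^ 2 := by nlinarith
    exact mul_le_mul_of_nonneg_left this (by linarith)
  have g0 : M ≤ M * y ^ 2 := by
    have : 1 ≤ y ^ 2 := one_le_pow₀ hy1
    nlinarith
  have g3 : M * y ^ 2 ≤ y * y ^ 2 := mul_le_mul_of_nonneg_right hy (by positivity)
  have h3 : y * y ^ 2 = y ^ 3 := by ring
  have y3 : 0 ≤ y ^ 3 := by positivity
  unfold F9
  rw [div_le_iff₀ (by norm_num), zero_mul]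
  nlinarith [f2, f3, g1, g0, g3, e1]

theorem q9_nonneg (x : ℝ) (h0 : 0 ≤ x) (h2 : x ≤ 2) : 0 ≤ q9 x := by
  unfold q9
  apply div_nonneg _ (by norm_num)
  have h3 : x ^ 2 ≤ 4 := by nlinarith
  have h4 : x ^ 3 ≤ 8 := by
    calc x ^ 3 ≤ 2 ^ 3 := pow_le_pow_left₀ h0 h2 3
      _ = 8 := by norm_num
  have : 10080 * x - 1512 * x ^ 2 + 72 * x ^ 3 - x ^ 4 =
      x * (10080 - 1512 * x + 72 * x ^ 2 - x ^ 3) := by ring
  rw [this]
  apply mul_nonneg h0
  nlinarith [sq_nonneg x]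

theorem q9_lower (x : ℝ) (h1 : 1 ≤ x) : -(x ^ 4 / 9) ≤ q9 x := by
  unfold q9
  rw [le_div_iff₀ (by norm_num)]
  have h2 : x ^ 2 ≤ x ^ 4 := pow_le_pow_right₀ h1 (by norm_num)
  have h3 : 0 ≤ x ^ 3 := by positivity
  have h4 : 0 ≤ x ^ 4 := by positivity
  nlinarith

/-! ### the characters -/

theorem two_nsmul_ne {G : Type} [AddCommGroup G] [Fintype G] (ho : Odd (Fintype.card G))
    (χ : AddChar G ℂ) (hχ : χ ≠ 0) : 2 • χ ≠ 0 := by
  intro h
  apply hχ
  obtain ⟨k, hk⟩ := ho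
  have h1 : Fintype.card (AddChar G ℂ) • χ = 0 := card_nsmul_eq_zero
  have h2 : Fintype.card (AddChar G ℂ) = 2 * k + 1 := by
    rw [← hk]
    exact AddChar.card_eq
  rw [h2, add_nsmul, one_nsmul, mul_nsmul, h, nsmul_zero, zero_add] at h1
  exact h1

theorem v_zero {G : Type} [AddCommGroup G] [Fintype G] {T : Finset G} {m : ℕ}
    (hT : TileS 9 T m) : v T 0 = 2 * (m : ℝ) + 1 := by
  unfold v V
  have : ∑ x ∈ T, (0 : AddChar G ℂ) x = (#T : ℂ) := by
    simp
  rw [this, hT.card]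
  simp

theorem facts (hSR : T_SR) (hD : DS 9 q9 2) : ∃ (B K : ℝ) (m₀ : ℕ), 0 < B ∧ 0 < K ∧ 1 ≤ m₀ ∧
    ∀ m : ℕ, m₀ ≤ m → ∀ (G : Type) [AddCommGroup G] [Fintype G] (T : Finset G), TileS 9 T m →
      v T 0 = 2 * (m : ℝ) + 1 ∧ ∀ χ : AddChar G ℂ, χ ≠ 0 → v T χ ^ 2 ≤ B * m ∧
        (2 * (m : ℝ) ≤ v T χ ^ 2 → |q9 (v T χ ^ 2 / m) - 1| ≤ K / √m) ∧
        (v T χ ^ 2 < 2 * m → v T χ ^ 2 ≤ K) := by
  obtain ⟨K0, hK0, hsr⟩ := hSR 9 (by norm_num)
  obtain ⟨K, m1, hK, hds⟩ := hD K0 hK0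
  obtain ⟨m2, hm2⟩ := exists_nat_ge (K0 ^ 2)
  refine ⟨K0 ^ 2, K + (7 * K) ^ 2, m1 + m2 + 1, by positivity, by positivity, by omega, ?_⟩
  intro m hm G _ _ T hT
  have hm1 : 1 ≤ m := by omega
  have hmr : (1 : ℝ) ≤ m := by exact_mod_cast hm1
  have hm0 : (0 : ℝ) < m := by linarith
  have v0 := v_zero hT
  refine ⟨v0, ?_⟩
  have hb : ∀ χ : AddChar G ℂ, χ ≠ 0 → |v T χ| ≤ K0 * √m :=
    hsr (AddChar G ℂ) (v T) m hmr v0 (hT.char)
  have hKm : K0 * √m ≤ 3 * m := by
    have h1 : K0 ^ 2 ≤ m := hm2.trans (by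
      have : m2 ≤ m := by omega
      exact_mod_cast this)
    have h2 : K0 ≤ √m := Real.le_sqrt_of_sq_le h1
    calc K0 * √m ≤ √m * √m := mul_le_mul_of_nonneg_right h2 (Real.sqrt_nonneg _)
      _ = m := Real.mul_self_sqrt hm0.le
      _ ≤ 3 * m := by linarith
  have hall : ∀ χ : AddChar G ℂ, |v T χ| ≤ 3 * m := by
    intro χ
    by_cases h : χ = 0
    · rw [h, v0, abs_of_nonneg (by positivity)]
      linarith
    · exact (hb χ h).trans hKm
  intro χ hχ
  have hB : v T χ ^ 2 ≤ K0 ^ 2 * m := by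
    have h1 := hb χ hχ
    calc v T χ ^ 2 = |v T χ| ^ 2 := (sq_abs _).symm
      _ ≤ (K0 * √m) ^ 2 := pow_le_pow_left₀ (abs_nonneg _) h1 2
      _ = K0 ^ 2 * m := by rw [mul_pow, Real.sq_sqrt hm0.le]
  have hm1' : (m1 : ℝ) ≤ m := by
    have : m1 ≤ m := by omega
    exact_mod_cast this
  obtain ⟨d1, d2⟩ := hds m hm1' (fun k => v T (k • χ)) (by
    rw [one_smul]
    exact hb χ hχ) (hb _ (two_nsmul_ne hT.odd χ hχ)) (fun k _ _ => hall _) (hT.char χ hχ)
  simp only [one_smul] at d1 d2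
  refine ⟨hB, fun h => ?_, fun h => ?_⟩
  · refine (d1 h).trans ?_
    have : K / √m ≤ (K + (7 * K) ^ 2) / √m := by
      apply div_le_div_of_nonneg_right _ (Real.sqrt_nonneg _)
      nlinarith [sq_nonneg (7 * K)]
    exact this
  · have h1 := d2 h
    have h3 : |v T (3 • χ)| / m ≤ 3 := by
      rw [div_le_iff₀ hm0]
      exact hall _
    have h5 : |v T (5 • χ)| / m ^ 2 ≤ 3 := by
      rw [div_le_iff₀ (by positivity)]
      have := hall (5 • χ)
      nlinarith
    have h6 : 1 / (m : ℝ) ^ 2 ≤ 1 := by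
      rw [div_le_one (by positivity)]
      nlinarith
    have h7 : |v T χ| ≤ 7 * K := by
      refine h1.trans ?_
      nlinarith
    have h8 : v T χ ^ 2 ≤ (7 * K) ^ 2 := by
      calc v T χ ^ 2 = |v T χ| ^ 2 := (sq_abs _).symm
        _ ≤ (7 * K) ^ 2 := pow_le_pow_left₀ (abs_nonneg _) h7 2
    linarith

/-! ### moments -/

def gg (a b : ℕ) : ℕ := (2 * a - 1)‼ * (2 * b - 1)‼ * 2 ^ (a + b)

theorem mom1 (hMO : T_MO) (hF : T_F9) (a b : ℕ) : ∃ C : ℝ, 0 ≤ C ∧ (2 * a + 6 * b ≤ 18 →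
    ∀ m : ℕ, 1 ≤ m → ∀ (G : Type) [AddCommGroup G] [Fintype G] (T : Finset G), TileS 9 T m →
      |∑ χ : AddChar G ℂ, (v T χ ^ 2 / m) ^ a * (v T (3 • χ) ^ 2 / m) ^ b -
        (gg a b : ℝ) * Fintype.card G| ≤ C * (Fintype.card G / m)) := by
  rcases Nat.eq_zero_or_pos (a + b) with h | h
  · have ha : a = 0 := by omega
    have hb : b = 0 := by omega
    subst ha
    subst hb
    refine ⟨0, le_rfl, fun _ m _ G _ _ T _ => ?_⟩
    have h1 : Fintype.card (AddChar G ℂ) = Fintype.card G := AddChar.card_eq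
    simp [gg, h1]
  · obtain ⟨C, hC⟩ := hF a b h
    refine ⟨|C|, abs_nonneg _, fun hab m hm G _ _ T hT => ?_⟩
    have hm0 : (0 : ℝ) < m := by exact_mod_cast hm
    have h1 := (hMO G T hT.neg_mem).2 (2 * a) (2 * b)
    rw [hT.words (2 * a) (2 * b) (by omega)] at h1
    have h2 : ∑ χ : AddChar G ℂ, (v T χ ^ 2 / m) ^ a * (v T (3 • χ) ^ 2 / m) ^ b =
        (Fintype.card G : ℝ) * RW (ball (Fin m) 1) (2 * a) (2 * b) / m ^ (a + b) := by
      rw [← h1, Finset.sum_div]
      refine Finset.sum_congr rfl fun χ _ => ?_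
      rw [div_pow, div_pow, ← pow_mul, ← pow_mul, div_mul_div_comm, pow_add]
    have h3 := hC m hm
    have hN : (0 : ℝ) ≤ Fintype.card G := Nat.cast_nonneg _
    rw [h2]
    have h4 : (Fintype.card G : ℝ) * RW (ball (Fin m) 1) (2 * a) (2 * b) / m ^ (a + b) -
        (gg a b : ℝ) * Fintype.card G =
        (Fintype.card G : ℝ) / m ^ (a + b) * ((RW (ball (Fin m) 1) (2 * a) (2 * b) : ℝ) -
          (gg a b : ℝ) * (m : ℝ) ^ (a + b)) := by
      field_simp
    rw [h4, abs_mul, abs_of_nonneg (by positivity)]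
    have h5 : |(RW (ball (Fin m) 1) (2 * a) (2 * b) : ℝ) - (gg a b : ℝ) * (m : ℝ) ^ (a + b)| ≤
        |C| * (m : ℝ) ^ (a + b - 1) := by
      refine h3.trans ?_
      exact mul_le_mul_of_nonneg_right (le_abs_self C) (by positivity)
    calc (Fintype.card G : ℝ) / m ^ (a + b) * _ ≤
          (Fintype.card G : ℝ) / m ^ (a + b) * (|C| * (m : ℝ) ^ (a + b - 1)) :=
          mul_le_mul_of_nonneg_left h5 (by positivity)
      _ = |C| * (Fintype.card G / m) := by
          have h6 : (m : ℝ) ^ (a + b) = m ^ (a + b - 1) * m := by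
            rw [← pow_succ]
            congr 1
            omega
          rw [h6]
          field_simp

theorem moments (hMO : T_MO) (hF : T_F9) : ∃ C : ℝ, 0 ≤ C ∧ ∀ a b : ℕ, a ≤ 4 → b ≤ 3 →
    2 * a + 6 * b ≤ 18 →
    ∀ m : ℕ, 1 ≤ m → ∀ (G : Type) [AddCommGroup G] [Fintype G] (T : Finset G), TileS 9 T m →
      |∑ χ : AddChar G ℂ, (v T χ ^ 2 / m) ^ a * (v T (3 • χ) ^ 2 / m) ^ b -
        (gg a b : ℝ) * Fintype.card G| ≤ C * (Fintype.card G / m) := by
  choose C h0 hC using fun a b => mom1 hMO hF a b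
  refine ⟨∑ a ∈ range 5, ∑ b ∈ range 4, C a b,
    Finset.sum_nonneg fun a _ => Finset.sum_nonneg fun b _ => h0 a b, ?_⟩
  intro a b ha hb hab m hm G _ _ T hT
  refine (hC a b hab m hm G T hT).trans ?_
  apply mul_le_mul_of_nonneg_right _ (by positivity)
  have h1 : C a b ≤ ∑ b ∈ range 4, C a b :=
    Finset.single_le_sum (f := fun b => C a b) (fun b _ => h0 a b) (mem_range.2 (by omega))
  refine h1.trans ?_
  exact Finset.single_le_sum (f := fun a => ∑ b ∈ range 4, C a b)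
    (fun a _ => Finset.sum_nonneg fun b _ => h0 a b) (mem_range.2 (by omega))

/-- growth: powers of `m` are small compared with the order of the group -/
theorem c9 (hSR : T_SR) (hMO : T_MO) (hF9 : T_F9) (hA9 : T_A9) (hN9 : T_N9) : T_C9 := by
  intro hD η hη
  obtain ⟨B, K, m1, hB, hK, hm1, hf⟩ := facts hSR hD
  obtain ⟨⟨c, hc, hcard⟩, -⟩ := hA9
  obtain ⟨C, hC0, hmom⟩ := moments hMO hF9
  obtain ⟨ε, hε, hn9⟩ := hN9 B
  obtain ⟨Y, hY1, hY⟩ := F9_far B hB.le
  -- the constant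
  set L : ℝ := 4 * C + 177147 / c + 729 / c + K + 1 with hL
  have hLp : 0 < L := by
    have : 0 < 177147 / c := by positivity
    have : 0 < 729 / c := by positivity
    rw [hL]; positivity
  obtain ⟨m2, hm2⟩ := exists_nat_ge ((L / η) ^ 2 + Y + (K / ε) ^ 2 + K / ε)
  refine ⟨m1 + m2 + 1, ?_⟩
  intro m hm G _ _ T hT
  have hm1' : 1 ≤ m := by omega
  have hmr : (1 : ℝ) ≤ m := by exact_mod_cast hm1'
  have hm0 : (0 : ℝ) < m := by linarith
  have hmle : (L / η) ^ 2 + Y + (K / ε) ^ 2 + K / ε ≤ m := hm2.trans (by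
    have : m2 ≤ m := by omega
    exact_mod_cast this)
  have hLm : (L / η) ^ 2 ≤ m := by
    have : 0 ≤ (K / ε) ^ 2 := by positivity
    have : 0 ≤ K / ε := by positivity
    linarith
  have hYm : Y ≤ m := by
    have : 0 ≤ (K / ε) ^ 2 := by positivity
    have : 0 ≤ K / ε := by positivity
    have : 0 ≤ (L / η) ^ 2 := by positivity
    linarith
  have hKm : (K / ε) ^ 2 ≤ m := by
    have : 0 ≤ K / ε := by positivity
    have : 0 ≤ (L / η) ^ 2 := by positivity
    linarith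
  have hKm' : K / ε ≤ m := by
    have : 0 ≤ (K / ε) ^ 2 := by positivity
    have : 0 ≤ (L / η) ^ 2 := by positivity
    linarith
  have hs0 : 0 < √(m : ℝ) := Real.sqrt_pos.2 hm0
  have hs1 : 1 ≤ √(m : ℝ) := by
    rw [← Real.sqrt_one]
    exact Real.sqrt_le_sqrt hmr
  have hsm : √(m : ℝ) ≤ m := by
    calc √(m : ℝ) = √m * 1 := (mul_one _).symm
      _ ≤ √m * √m := mul_le_mul_of_nonneg_left hs1 hs0.le
      _ = m := Real.mul_self_sqrt hm0.le
  have hLs : L / √m ≤ η := by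
    have h1 : L / η ≤ √m := Real.le_sqrt_of_sq_le hLm
    rw [div_le_iff₀ hη] at h1
    rw [div_le_iff₀ hs0]
    linarith
  have hKs : K / √m ≤ ε := by
    have h1 : K / ε ≤ √m := Real.le_sqrt_of_sq_le hKm
    rw [div_le_iff₀ hε] at h1
    rw [div_le_iff₀ hs0]
    linarith
  have hKe : K / m ≤ ε := by
    rw [div_le_iff₀ hε] at hKm'
    rw [div_le_iff₀ hm0]
    linarith
  set N : ℝ := (Fintype.card G : ℝ) with hN
  have hN0 : 0 ≤ N := Nat.cast_nonneg _
  have hNm : c * (m : ℝ) ^ 6 ≤ N := by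
    rw [hN, hT.cardG]
    exact hcard m
  obtain ⟨hv0, hfχ⟩ := hf m (by omega) G T hT
  have hcardχ : Fintype.card (AddChar G ℂ) = Fintype.card G := AddChar.card_eq
  -- the value at zero
  set x0 : ℝ := (2 * (m : ℝ) + 1) ^ 2 / m with hx0
  have hx01 : 1 ≤ x0 := by
    rw [hx0, le_div_iff₀ hm0]
    nlinarith
  have hx09 : x0 ≤ 9 * m := by
    rw [hx0, div_le_iff₀ hm0]
    nlinarith
  have hx04 : 4 * (m : ℝ) ≤ x0 := by
    rw [hx0, le_div_iff₀ hm0]
    nlinarith
  -- moments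
  have S : ∀ a b : ℕ, a ≤ 4 → b ≤ 3 → 2 * a + 6 * b ≤ 18 →
      |∑ χ : AddChar G ℂ, (v T χ ^ 2 / m) ^ a * (v T (3 • χ) ^ 2 / m) ^ b -
        (gg a b : ℝ) * N| ≤ C * (N / m) := fun a b ha hb hab => hmom a b ha hb hab m hm1' G T hT
  set s : ℕ → ℕ → ℝ := fun a b =>
    ∑ χ : AddChar G ℂ, (v T χ ^ 2 / m) ^ a * (v T (3 • χ) ^ 2 / m) ^ b with hs
  have S' : ∀ a b : ℕ, a ≤ 4 → b ≤ 3 → 2 * a + 6 * b ≤ 18 →
      (gg a b : ℝ) * N - C * (N / m) ≤ s a b ∧ s a b ≤ (gg a b : ℝ) * N + C * (N / m) := by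
    intro a b ha hb hab
    have h1 := abs_le.1 (S a b ha hb hab)
    constructor
    · have := h1.1
      change _ ≤ ∑ χ : AddChar G ℂ, (v T χ ^ 2 / m) ^ a * (v T (3 • χ) ^ 2 / m) ^ b
      linarith
    · have := h1.2
      change ∑ χ : AddChar G ℂ, (v T χ ^ 2 / m) ^ a * (v T (3 • χ) ^ 2 / m) ^ b ≤ _
      linarith
  have hδ : 0 ≤ C * (N / m) := by positivity
  have hNs : N / m ≤ N / √m := div_le_div_of_nonneg_left hN0 hs0 hsm
  have hm5 : (m : ℝ) ^ 5 ≤ N / m / c := by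
    rw [le_div_iff₀ hc, le_div_iff₀ hm0]
    calc (m : ℝ) ^ 5 * c * m = c * m ^ 6 := by ring
      _ ≤ N := hNm
  have hm4 : (m : ℝ) ^ 4 ≤ N / m / c :=
    (pow_le_pow_right₀ hmr (by norm_num)).trans hm5
  have hNsη : L * (N / √m) ≤ η * N := by
    calc L * (N / √m) = L / √m * N := by ring
      _ ≤ η * N := mul_le_mul_of_nonneg_right hLs hN0
  have hNs0 : 0 ≤ N / √m := by positivity
  constructor
  · -- the large characters
    have hpt : ∀ χ : AddChar G ℂ, (if χ = 0 then -(729 * (m : ℝ) ^ 4) else 0) +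
        (if χ ≠ 0 ∧ 2 * (m : ℝ) ≤ v T χ ^ 2 then 1 - K / √m else 0) ≤ q9 (v T χ ^ 2 / m) := by
      intro χ
      by_cases h : χ = 0
      · rw [if_pos h, if_neg (fun h2 => h2.1 h), add_zero, h, hv0]
        have h1 := q9_lower x0 hx01
        have h2 : x0 ^ 4 ≤ (9 * m) ^ 4 := pow_le_pow_left₀ (by linarith) hx09 4
        have h3 : (9 * (m : ℝ)) ^ 4 = 6561 * m ^ 4 := by ring
        rw [h3] at h2
        linarith
      · rw [if_neg h, zero_add]
        obtain ⟨f1, f2, f3⟩ := hfχ χ h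
        by_cases h2 : 2 * (m : ℝ) ≤ v T χ ^ 2
        · rw [if_pos ⟨h, h2⟩]
          have := abs_le.1 (f2 h2)
          linarith [this.1]
        · rw [if_neg (fun h3 => h2 h3.2)]
          push Not at h2
          apply q9_nonneg
          · positivity
          · rw [div_le_iff₀ hm0]
            exact h2.le
    have hsum := Finset.sum_le_sum (s := (univ : Finset (AddChar G ℂ))) fun χ _ => hpt χ
    rw [Finset.sum_add_distrib, Finset.sum_ite_eq' univ (0 : AddChar G ℂ),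
      if_pos (mem_univ _), ← Finset.sum_filter, Finset.sum_const, nsmul_eq_mul] at hsum
    have hq : ∑ χ : AddChar G ℂ, q9 (v T χ ^ 2 / m) =
        (10080 * s 1 0 - 1512 * s 2 0 + 72 * s 3 0 - s 4 0) / 15120 := by
      rw [hs]
      simp only [q9, pow_zero, mul_one, pow_one]
      rw [← Finset.sum_div, Finset.sum_sub_distrib, Finset.sum_add_distrib,
        Finset.sum_sub_distrib, Finset.mul_sum, Finset.mul_sum, Finset.mul_sum]
    rw [hq] at hsum
    have b1 := (S' 1 0 (by norm_num) (by norm_num) (by norm_num))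
    have b2 := (S' 2 0 (by norm_num) (by norm_num) (by norm_num))
    have b3 := (S' 3 0 (by norm_num) (by norm_num) (by norm_num))
    have b4 := (S' 4 0 (by norm_num) (by norm_num) (by norm_num))
    have g1 : (gg 1 0 : ℝ) = 2 := by norm_num [gg, Nat.doubleFactorial]
    have g2 : (gg 2 0 : ℝ) = 12 := by norm_num [gg, Nat.doubleFactorial]
    have g3 : (gg 3 0 : ℝ) = 120 := by norm_num [gg, Nat.doubleFactorial]
    have g4 : (gg 4 0 : ℝ) = 1680 := by norm_num [gg, Nat.doubleFactorial]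
    rw [g1] at b1
    rw [g2] at b2
    rw [g3] at b3
    rw [g4] at b4
    set n : ℝ := ((#{χ : AddChar G ℂ | χ ≠ 0 ∧ 2 * (m : ℝ) ≤ v T χ ^ 2} : ℕ) : ℝ) with hn
    have hn1 : n ≤ N := by
      rw [hn, hN, ← hcardχ]
      exact_mod_cast Finset.card_filter_le _ _
    have hn0 : 0 ≤ n := Nat.cast_nonneg _
    have h1 : n * (1 - K / √m) = n - n * (K / √m) := by ring
    rw [h1] at hsum
    have h2 : n * (K / √m) ≤ K * (N / √m) := by
      calc n * (K / √m) ≤ N * (K / √m) := mul_le_mul_of_nonneg_right hn1 (by positivity)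
        _ = K * (N / √m) := by ring
    have h3 : C * (N / m) ≤ C * (N / √m) := mul_le_mul_of_nonneg_left hNs hC0
    have h4 : 729 * (m : ℝ) ^ 4 ≤ 729 / c * (N / √m) := by
      calc 729 * (m : ℝ) ^ 4 ≤ 729 * (N / m / c) := mul_le_mul_of_nonneg_left hm4 (by norm_num)
        _ = 729 / c * (N / m) := by ring
        _ ≤ 729 / c * (N / √m) := mul_le_mul_of_nonneg_left hNs (by positivity)
    have h5 : (C + 729 / c + K) * (N / √m) ≤ L * (N / √m) := by
      apply mul_le_mul_of_nonneg_right _ hNs0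
      rw [hL]
      have : 0 < 177147 / c := by positivity
      linarith
    nlinarith [b1.2, b2.1, b3.2, b4.1]
  · -- the small characters
    set P : AddChar G ℂ → Prop := fun χ => χ ≠ 0 ∧ v T χ ^ 2 < 2 * m ∧ 3 • χ ≠ 0 ∧
      v T (3 • χ) ^ 2 < 2 * m with hP
    have hpt : ∀ χ : AddChar G ℂ, F9 (v T χ ^ 2 / m) (v T (3 • χ) ^ 2 / m) ≤
        (if χ = 0 then 177147 * (m : ℝ) ^ 5 else 0) + (if P χ then 1 else 0) := by
      intro χ
      by_cases h : χ = 0
      · rw [if_pos h, if_neg (fun h2 : P χ => h2.1 h), add_zero, h, nsmul_zero, hv0]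
        refine (F9_diag x0 hx01).trans ?_
        have h2 : x0 ^ 5 ≤ (9 * m) ^ 5 := pow_le_pow_left₀ (by linarith) hx09 5
        have h3 : (9 * (m : ℝ)) ^ 5 = 59049 * m ^ 5 := by ring
        rw [h3] at h2
        linarith
      · rw [if_neg h, zero_add]
        obtain ⟨f1, f2, f3⟩ := hfχ χ h
        have hx : 0 ≤ v T χ ^ 2 / m := by positivity
        have hxB : v T χ ^ 2 / m ≤ B := by
          rw [div_le_iff₀ hm0]
          exact f1
        by_cases h3 : 3 • χ = 0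
        · rw [if_neg (fun h2 : P χ => h2.2.2.1 h3), h3, hv0]
          exact hY _ _ hx hxB (by linarith)
        · obtain ⟨e1, e2, e3⟩ := hfχ (3 • χ) h3
          have hy : 0 ≤ v T (3 • χ) ^ 2 / m := by positivity
          have hyB : v T (3 • χ) ^ 2 / m ≤ B := by
            rw [div_le_iff₀ hm0]
            exact e1
          have key : ∀ w : ℝ, (2 * (m : ℝ) ≤ w → |q9 (w / m) - 1| ≤ K / √m) →
              (w < 2 * m → w ≤ K) → (w / m ≤ ε ∨ (2 ≤ w / m ∧ |q9 (w / m) - 1| ≤ ε)) := by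
            intro w hw1 hw2
            by_cases hw : 2 * (m : ℝ) ≤ w
            · right
              refine ⟨?_, (hw1 hw).trans hKs⟩
              rw [le_div_iff₀ hm0]
              exact hw
            · left
              push Not at hw
              refine le_trans ?_ hKe
              exact div_le_div_of_nonneg_right (hw2 hw) hm0.le
          obtain ⟨r1, r2⟩ := hn9 _ _ hx hy hxB hyB (key _ f2 f3) (key _ e2 e3)
          by_cases hPχ : P χ
          · rw [if_pos hPχ]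
            exact r1
          · rw [if_neg hPχ]
            apply r2
            by_contra hcon
            push Not at hcon
            rw [div_lt_iff₀ hm0, div_lt_iff₀ hm0] at hcon
            exact hPχ ⟨h, hcon.1, h3, hcon.2⟩
    have hsum := Finset.sum_le_sum (s := (univ : Finset (AddChar G ℂ))) fun χ _ => hpt χ
    rw [Finset.sum_add_distrib, Finset.sum_ite_eq' univ (0 : AddChar G ℂ),
      if_pos (mem_univ _), ← Finset.sum_filter, Finset.sum_const, nsmul_eq_mul, mul_one] at hsum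
    have hF : ∑ χ : AddChar G ℂ, F9 (v T χ ^ 2 / m) (v T (3 • χ) ^ 2 / m) =
        (9980000 * s 0 0 - 6421146 * s 0 1 + 842348 * s 0 2 - 26938 * s 0 3
          - 6666667 * s 1 0 + 3927884 * s 1 1 - 355447 * s 1 2
          + 1000000 * s 2 0 - 575177 * s 2 1 + 46629 * s 2 2
          - 47619 * s 3 0 + 25862 * s 3 1 - 1491 * s 3 2
          + 661 * s 4 0 - 316 * s 4 1) / 10 ^ 7 := by
      rw [hs]
      simp only [F9, Finset.mul_sum]
      simp only [← Finset.sum_add_distrib, ← Finset.sum_sub_distrib, Finset.sum_div]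
      refine Finset.sum_congr rfl fun χ _ => ?_
      ring
    rw [hF] at hsum
    have g00 : (gg 0 0 : ℝ) = 1 := by norm_num [gg, Nat.doubleFactorial]
    have g01 : (gg 0 1 : ℝ) = 2 := by norm_num [gg, Nat.doubleFactorial]
    have g02 : (gg 0 2 : ℝ) = 12 := by norm_num [gg, Nat.doubleFactorial]
    have g03 : (gg 0 3 : ℝ) = 120 := by norm_num [gg, Nat.doubleFactorial]
    have g10 : (gg 1 0 : ℝ) = 2 := by norm_num [gg, Nat.doubleFactorial]
    have g11 : (gg 1 1 : ℝ) = 4 := by norm_num [gg, Nat.doubleFactorial]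
    have g12 : (gg 1 2 : ℝ) = 24 := by norm_num [gg, Nat.doubleFactorial]
    have g20 : (gg 2 0 : ℝ) = 12 := by norm_num [gg, Nat.doubleFactorial]
    have g21 : (gg 2 1 : ℝ) = 24 := by norm_num [gg, Nat.doubleFactorial]
    have g22 : (gg 2 2 : ℝ) = 144 := by norm_num [gg, Nat.doubleFactorial]
    have g30 : (gg 3 0 : ℝ) = 120 := by norm_num [gg, Nat.doubleFactorial]
    have g31 : (gg 3 1 : ℝ) = 240 := by norm_num [gg, Nat.doubleFactorial]
    have g32 : (gg 3 2 : ℝ) = 1440 := by norm_num [gg, Nat.doubleFactorial]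
    have g40 : (gg 4 0 : ℝ) = 1680 := by norm_num [gg, Nat.doubleFactorial]
    have g41 : (gg 4 1 : ℝ) = 3360 := by norm_num [gg, Nat.doubleFactorial]
    have b00 := S' 0 0 (by norm_num) (by norm_num) (by norm_num)
    have b01 := S' 0 1 (by norm_num) (by norm_num) (by norm_num)
    have b02 := S' 0 2 (by norm_num) (by norm_num) (by norm_num)
    have b03 := S' 0 3 (by norm_num) (by norm_num) (by norm_num)
    have b10 := S' 1 0 (by norm_num) (by norm_num) (by norm_num)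
    have b11 := S' 1 1 (by norm_num) (by norm_num) (by norm_num)
    have b12 := S' 1 2 (by norm_num) (by norm_num) (by norm_num)
    have b20 := S' 2 0 (by norm_num) (by norm_num) (by norm_num)
    have b21 := S' 2 1 (by norm_num) (by norm_num) (by norm_num)
    have b22 := S' 2 2 (by norm_num) (by norm_num) (by norm_num)
    have b30 := S' 3 0 (by norm_num) (by norm_num) (by norm_num)
    have b31 := S' 3 1 (by norm_num) (by norm_num) (by norm_num)
    have b32 := S' 3 2 (by norm_num) (by norm_num) (by norm_num)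
    have b40 := S' 4 0 (by norm_num) (by norm_num) (by norm_num)
    have b41 := S' 4 1 (by norm_num) (by norm_num) (by norm_num)
    rw [g00] at b00
    rw [g01] at b01
    rw [g02] at b02
    rw [g03] at b03
    rw [g10] at b10
    rw [g11] at b11
    rw [g12] at b12
    rw [g20] at b20
    rw [g21] at b21
    rw [g22] at b22
    rw [g30] at b30
    rw [g31] at b31
    rw [g32] at b32
    rw [g40] at b40
    rw [g41] at b41
    set n : ℝ := ((#{χ : AddChar G ℂ | P χ} : ℕ) : ℝ) with hn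
    have h3 : C * (N / m) ≤ C * (N / √m) := mul_le_mul_of_nonneg_left hNs hC0
    have h4 : 177147 * (m : ℝ) ^ 5 ≤ 177147 / c * (N / √m) := by
      calc 177147 * (m : ℝ) ^ 5 ≤ 177147 * (N / m / c) :=
            mul_le_mul_of_nonneg_left hm5 (by norm_num)
        _ = 177147 / c * (N / m) := by ring
        _ ≤ 177147 / c * (N / √m) := mul_le_mul_of_nonneg_left hNs (by positivity)
    have h5 : 4 * (C * (N / √m)) + 177147 / c * (N / √m) ≤ L * (N / √m) := by
      have h6 : (4 * C + 177147 / c) * (N / √m) ≤ L * (N / √m) := by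
        apply mul_le_mul_of_nonneg_right _ hNs0
        rw [hL]
        have : 0 < 729 / c := by positivity
        linarith
      linarith
    have hmain : 1165406 / 10 ^ 7 * N - 4 * (C * (N / m)) ≤
        (9980000 * s 0 0 - 6421146 * s 0 1 + 842348 * s 0 2 - 26938 * s 0 3
          - 6666667 * s 1 0 + 3927884 * s 1 1 - 355447 * s 1 2
          + 1000000 * s 2 0 - 575177 * s 2 1 + 46629 * s 2 2
          - 47619 * s 3 0 + 25862 * s 3 1 - 1491 * s 3 2
          + 661 * s 4 0 - 316 * s 4 1) / 10 ^ 7 := by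
      rw [le_div_iff₀ (by norm_num)]
      linarith [b00.1, b01.2, b02.1, b03.2, b10.2, b11.1, b12.2, b20.1, b21.2, b22.1, b30.2,
        b31.1, b32.2, b40.1, b41.2]
    change (23 / 200 - η) * N ≤ n
    linarith

end

end Pool.Agent.H67.GB.C9
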